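import Pool.Agent.P.MP_c3354e_al.Main

set_option autoImplicit false

namespace Pool.Agent.Results.MP_c3354e_al.B2FinitelyBased

open Pool.Agent.P.MP_c3354e_al

/-- The flat semiring `B_2` (signature `+`, `·`) is finitely based. -/
theorem result : FinitelyBased B2.add B2.mul := Pool.Agent.P.MP_c3354e_al.main

end Pool.Agent.Results.MP_c3354e_al.B2FinitelyBased
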